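import Pool.Agent.Lib.MP_e1f7e2_al.SU.Base

set_option autoImplicit false

/-! Algebraic identities (no degrees). -/

open MvPolynomial

namespace Pool.Agent.Lib.MP_e1f7e2_al.SU

section

variable {K : Type*} [Field K]


/-! ### `D` -/

lemma D_add (f g : MvPolynomial (Fin 3) K) : D (f + g) = D f + D g := by
  funext i; simp [D, mul_add]

lemma D_sub (f g : MvPolynomial (Fin 3) K) : D (f - g) = D f - D g := by
  funext i; simp [D, mul_sub]

lemma D_neg (f : MvPolynomial (Fin 3) K) : D (-f) = - D f := by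
  funext i; simp [D]

lemma D_C (c : K) : D (C c : MvPolynomial (Fin 3) K) = 0 := by
  funext i; simp [D]

lemma D_zero : D (0 : MvPolynomial (Fin 3) K) = 0 := by
  funext i; simp [D]

lemma D_mul (f g : MvPolynomial (Fin 3) K) : D (f * g) = f • D g + g • D f := by
  funext i
  simp only [D, Derivation.leibniz, Pi.add_apply, Pi.smul_apply, smul_eq_mul]
  ring

lemma D_Cmul (c : K) (f : MvPolynomial (Fin 3) K) : D (C c * f) = (C c : MvPolynomial (Fin 3) K) • D f := by
  rw [D_mul, D_C]; simp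

lemma D_sq (f : MvPolynomial (Fin 3) K) : D (f ^ 2) = (2 * f) • D f := by
  rw [pow_two, D_mul, ← add_smul]; ring_nf

/-! ### `cr`, `dt` -/

lemma cr_add_left (u v z : Fin 3 → (MvPolynomial (Fin 3) K)) : cr (u + v) z = cr u z + cr v z := by
  funext i; fin_cases i <;> simp [cr] <;> ring

lemma cr_add_right (u v z : Fin 3 → (MvPolynomial (Fin 3) K)) : cr u (v + z) = cr u v + cr u z := by
  funext i; fin_cases i <;> simp [cr] <;> ring

lemma cr_sub_left (u v z : Fin 3 → (MvPolynomial (Fin 3) K)) : cr (u - v) z = cr u z - cr v z := by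
  funext i; fin_cases i <;> simp [cr] <;> ring

lemma cr_sub_right (u v z : Fin 3 → (MvPolynomial (Fin 3) K)) : cr u (v - z) = cr u v - cr u z := by
  funext i; fin_cases i <;> simp [cr] <;> ring

lemma cr_neg_left (u v : Fin 3 → (MvPolynomial (Fin 3) K)) : cr (-u) v = - cr u v := by
  funext i; fin_cases i <;> simp [cr] <;> ring

lemma cr_neg_right (u v : Fin 3 → (MvPolynomial (Fin 3) K)) : cr u (-v) = - cr u v := by
  funext i; fin_cases i <;> simp [cr] <;> ring

lemma cr_smul_left (a : MvPolynomial (Fin 3) K) (u v : Fin 3 → (MvPolynomial (Fin 3) K)) : cr (a • u) v = a • cr u v := by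
  funext i; fin_cases i <;> simp [cr] <;> ring

lemma cr_smul_right (a : MvPolynomial (Fin 3) K) (u v : Fin 3 → (MvPolynomial (Fin 3) K)) : cr u (a • v) = a • cr u v := by
  funext i; fin_cases i <;> simp [cr] <;> ring

lemma cr_self (u : Fin 3 → (MvPolynomial (Fin 3) K)) : cr u u = 0 := by
  funext i; fin_cases i <;> simp [cr] <;> ring

lemma cr_anti (u v : Fin 3 → (MvPolynomial (Fin 3) K)) : cr u v = - cr v u := by
  funext i; fin_cases i <;> simp [cr] <;> ring

lemma cr_zero_left (v : Fin 3 → (MvPolynomial (Fin 3) K)) : cr 0 v = 0 := by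
  funext i; fin_cases i <;> simp [cr]

lemma cr_zero_right (v : Fin 3 → (MvPolynomial (Fin 3) K)) : cr v 0 = 0 := by
  funext i; fin_cases i <;> simp [cr]

lemma dt_add_left (u v z : Fin 3 → (MvPolynomial (Fin 3) K)) : dt (u + v) z = dt u z + dt v z := by
  simp [dt]; ring

lemma dt_add_right (u v z : Fin 3 → (MvPolynomial (Fin 3) K)) : dt u (v + z) = dt u v + dt u z := by
  simp [dt]; ring

lemma dt_smul_left (a : MvPolynomial (Fin 3) K) (u v : Fin 3 → (MvPolynomial (Fin 3) K)) : dt (a • u) v = a * dt u v := by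
  simp [dt]; ring

lemma dt_smul_right (a : MvPolynomial (Fin 3) K) (u v : Fin 3 → (MvPolynomial (Fin 3) K)) : dt u (a • v) = a * dt u v := by
  simp [dt]; ring

lemma dt_cr_self_left (u v : Fin 3 → (MvPolynomial (Fin 3) K)) : dt u (cr u v) = 0 := by
  simp [dt, cr]; ring

lemma dt_cr_self_right (u v : Fin 3 → (MvPolynomial (Fin 3) K)) : dt u (cr v u) = 0 := by
  simp [dt, cr]; ring

/-- `det (v,u,z) = - det (u,v,z)` -/
lemma dt_cr_swap (u v z : Fin 3 → (MvPolynomial (Fin 3) K)) : dt v (cr u z) = - dt u (cr v z) := by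
  simp [dt, cr]; ring

lemma dt_cr_swap' (u v z : Fin 3 → (MvPolynomial (Fin 3) K)) : dt u (cr z v) = - dt u (cr v z) := by
  simp [dt, cr]; ring

/-- the vector identity behind the principle of two maxima -/
lemma vec_identity (u v z t : Fin 3 → (MvPolynomial (Fin 3) K)) :
    dt u t • cr v z + dt v t • cr z u + dt z t • cr u v = dt u (cr v z) • t := by
  funext i; fin_cases i <;> simp [dt, cr] <;> ring

/-! ### `ev` -/

lemma ev_add (P Q : MvPolynomial (Fin 2) K) (f g : MvPolynomial (Fin 3) K) : ev (P + Q) f g = ev P f g + ev Q f g := by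
  simp [ev]

lemma ev_sub (P Q : MvPolynomial (Fin 2) K) (f g : MvPolynomial (Fin 3) K) : ev (P - Q) f g = ev P f g - ev Q f g := by
  simp [ev]

lemma ev_neg (P : MvPolynomial (Fin 2) K) (f g : MvPolynomial (Fin 3) K) : ev (-P) f g = - ev P f g := by
  simp [ev]

lemma ev_mul (P Q : MvPolynomial (Fin 2) K) (f g : MvPolynomial (Fin 3) K) : ev (P * Q) f g = ev P f g * ev Q f g := by
  simp [ev]

lemma ev_pow (P : MvPolynomial (Fin 2) K) (n : ℕ) (f g : MvPolynomial (Fin 3) K) : ev (P ^ n) f g = ev P f g ^ n := by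
  simp [ev]

lemma ev_C (c : K) (f g : MvPolynomial (Fin 3) K) : ev (C c) f g = C c := by
  simp [ev, algebraMap_eq]

lemma ev_zero (f g : MvPolynomial (Fin 3) K) : ev (0 : MvPolynomial (Fin 2) K) f g = 0 := by
  simp [ev]

lemma ev_X0 (f g : MvPolynomial (Fin 3) K) : ev (X 0 : MvPolynomial (Fin 2) K) f g = f := by
  simp [ev]

lemma ev_X1 (f g : MvPolynomial (Fin 3) K) : ev (X 1 : MvPolynomial (Fin 2) K) f g = g := by
  simp [ev]

lemma ev_comp (P Q R : MvPolynomial (Fin 2) K) (f g : MvPolynomial (Fin 3) K) :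
    ev P (ev Q f g) (ev R f g) = ev (aeval ![Q, R] P) f g := by
  have : (aeval ![ev Q f g, ev R f g] : MvPolynomial (Fin 2) K →ₐ[K] (MvPolynomial (Fin 3) K)) =
      (aeval ![f, g] : MvPolynomial (Fin 2) K →ₐ[K] (MvPolynomial (Fin 3) K)).comp (aeval ![Q, R]) := by
    apply MvPolynomial.algHom_ext
    intro i; fin_cases i <;> simp [ev]
  simpa [ev] using congrArg (fun φ : MvPolynomial (Fin 2) K →ₐ[K] (MvPolynomial (Fin 3) K) => φ P) this

/-- swapping the two variables -/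
lemma ev_swap (P : MvPolynomial (Fin 2) K) (f g : MvPolynomial (Fin 3) K) :
    ev (aeval ![X 1, X 0] P) f g = ev P g f := by
  have := ev_comp P (X 1) (X 0) f g
  rw [ev_X0, ev_X1] at this
  exact this.symm

/-- univariate polynomials -/
lemma ev_uni0 (R : Polynomial K) (f g : MvPolynomial (Fin 3) K) :
    ev (Polynomial.aeval (X 0 : MvPolynomial (Fin 2) K) R) f g = Polynomial.aeval f R := by
  have := Polynomial.aeval_algHom_apply (aeval ![f, g] : MvPolynomial (Fin 2) K →ₐ[K] (MvPolynomial (Fin 3) K))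
    (X 0 : MvPolynomial (Fin 2) K) R
  simpa [ev] using this.symm

lemma ev_uni1 (R : Polynomial K) (f g : MvPolynomial (Fin 3) K) :
    ev (Polynomial.aeval (X 1 : MvPolynomial (Fin 2) K) R) f g = Polynomial.aeval g R := by
  have := Polynomial.aeval_algHom_apply (aeval ![f, g] : MvPolynomial (Fin 2) K →ₐ[K] (MvPolynomial (Fin 3) K))
    (X 1 : MvPolynomial (Fin 2) K) R
  simpa [ev] using this.symm

/-- chain rule -/
lemma D_ev (P : MvPolynomial (Fin 2) K) (f g : MvPolynomial (Fin 3) K) :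
    D (ev P f g) = ev (pderiv 0 P) f g • D f + ev (pderiv 1 P) f g • D g := by
  induction P using MvPolynomial.induction_on with
  | C a => simp [ev_C, D_C, ev_zero]
  | add p q hp hq =>
    rw [ev_add, D_add, hp, hq]
    simp only [map_add, ev_add, add_smul]
    abel
  | mul_X p n hp =>
    rw [ev_mul, D_mul, hp]
    fin_cases n
    · simp only [Fin.zero_eta, Fin.isValue, ev_X0, Derivation.leibniz, pderiv_X_self, smul_eq_mul,
        mul_one, ne_eq, zero_ne_one, not_false_eq_true, pderiv_X_of_ne, mul_zero, zero_add,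
        ev_add, ev_mul, smul_add, add_smul, smul_smul]
      abel
    · simp only [Fin.mk_one, Fin.isValue, ev_X1, Derivation.leibniz, pderiv_X_self, smul_eq_mul,
        mul_one, ne_eq, one_ne_zero, not_false_eq_true, pderiv_X_of_ne, mul_zero, zero_add,
        ev_add, ev_mul, smul_add, add_smul, smul_smul]
      abel

/-- change of a bracket vector under an elementary move -/
lemma cr_elem0 (f g h : MvPolynomial (Fin 3) K) (R : MvPolynomial (Fin 2) K) :
    cr (D (f + ev R g h)) (D h) = cr (D f) (D h) + ev (pderiv 0 R) g h • cr (D g) (D h) := by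
  rw [D_add, D_ev, cr_add_left, cr_add_left, cr_smul_left, cr_smul_left, cr_self, smul_zero,
    add_zero]

lemma cr_elem1 (f g h : MvPolynomial (Fin 3) K) (R : MvPolynomial (Fin 2) K) :
    cr (D (f + ev R g h)) (D g) = cr (D f) (D g) + ev (pderiv 1 R) g h • cr (D h) (D g) := by
  rw [D_add, D_ev, cr_add_left, cr_add_left, cr_smul_left, cr_smul_left, cr_self, smul_zero,
    zero_add]

/-! ### frames -/

lemma Fr.swap12 {f g h : (MvPolynomial (Fin 3) K)} (H : Fr f g h) : Fr g f h := by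
  obtain ⟨c, hc, h1⟩ := H
  refine ⟨-c, neg_ne_zero.mpr hc, ?_⟩
  rw [dt_cr_swap, h1]; simp

lemma Fr.swap23 {f g h : (MvPolynomial (Fin 3) K)} (H : Fr f g h) : Fr f h g := by
  obtain ⟨c, hc, h1⟩ := H
  refine ⟨-c, neg_ne_zero.mpr hc, ?_⟩
  rw [dt_cr_swap', h1]; simp

lemma Fr.swap13 {f g h : (MvPolynomial (Fin 3) K)} (H : Fr f g h) : Fr h g f := H.swap12.swap23.swap12

lemma Fr.rot {f g h : (MvPolynomial (Fin 3) K)} (H : Fr f g h) : Fr g h f := H.swap12.swap23

lemma Fr.rot' {f g h : (MvPolynomial (Fin 3) K)} (H : Fr f g h) : Fr h f g := H.rot.rot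

lemma Fr.elem3 {f g h : (MvPolynomial (Fin 3) K)} (H : Fr f g h) (P : MvPolynomial (Fin 2) K) :
    Fr f g (h + ev P f g) := by
  obtain ⟨c, hc, h1⟩ := H
  refine ⟨c, hc, ?_⟩
  rw [D_add, D_ev, cr_add_right, cr_add_right, cr_smul_right, cr_smul_right, cr_self,
    dt_add_right, dt_add_right, dt_smul_right, dt_cr_self_right, h1]
  simp [dt]

lemma Fr.elem1 {f g h : (MvPolynomial (Fin 3) K)} (H : Fr f g h) (P : MvPolynomial (Fin 2) K) :
    Fr (f + ev P g h) g h := (H.rot.elem3 P).rot'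

lemma Fr.elem2 {f g h : (MvPolynomial (Fin 3) K)} (H : Fr f g h) (P : MvPolynomial (Fin 2) K) :
    Fr f (g + ev P f h) h := (H.swap23.elem3 P).swap23

lemma Fr.smul1 {f g h : (MvPolynomial (Fin 3) K)} (H : Fr f g h) {a : K} (ha : a ≠ 0) : Fr (C a * f) g h := by
  obtain ⟨c, hc, h1⟩ := H
  refine ⟨a * c, mul_ne_zero ha hc, ?_⟩
  rw [D_Cmul, dt_smul_left, h1, map_mul]; ring

lemma Fr.smul2 {f g h : (MvPolynomial (Fin 3) K)} (H : Fr f g h) {a : K} (ha : a ≠ 0) : Fr f (C a * g) h :=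
  (H.swap12.smul1 ha).swap12

lemma Fr.smul3 {f g h : (MvPolynomial (Fin 3) K)} (H : Fr f g h) {a : K} (ha : a ≠ 0) : Fr f g (C a * h) :=
  (H.swap13.smul1 ha).swap13

lemma fr_X : Fr (X 0 : MvPolynomial (Fin 3) K) (X 1) (X 2) := by
  refine ⟨1, one_ne_zero, ?_⟩
  simp [dt, cr, D, pderiv_X]
  ring

/-! ### vertices -/

lemma sp3_swap12 (f g h : MvPolynomial (Fin 3) K) : sp3 f g h = sp3 g f h := by
  unfold sp3; congr 1; ext x; simp; tauto

lemma sp3_swap23 (f g h : MvPolynomial (Fin 3) K) : sp3 f g h = sp3 f h g := by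
  unfold sp3; congr 1; ext x; simp; tauto

lemma sp3_rot (f g h : MvPolynomial (Fin 3) K) : sp3 f g h = sp3 g h f := by
  unfold sp3; congr 1; ext x; simp; tauto

lemma sp3_rot' (f g h : MvPolynomial (Fin 3) K) : sp3 f g h = sp3 h f g := by
  unfold sp3; congr 1; ext x; simp; tauto

lemma mem_sp3 {f g h x : (MvPolynomial (Fin 3) K)} : x ∈ sp3 f g h ↔
    ∃ a b c d : K, x = C a * f + C b * g + C c * h + C d := by
  unfold sp3
  simp only [Submodule.mem_span_insert, Submodule.mem_span_singleton]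
  constructor
  · rintro ⟨d, z, ⟨a, z', ⟨b, z'', ⟨c, rfl⟩, rfl⟩, rfl⟩, rfl⟩
    exact ⟨a, b, c, d, by simp [smul_eq_C_mul]; ring⟩
  · rintro ⟨a, b, c, d, rfl⟩
    exact ⟨d, _, ⟨a, _, ⟨b, _, ⟨c, rfl⟩, rfl⟩, rfl⟩, by simp [smul_eq_C_mul]; ring⟩

lemma sp3_le {f g h f' g' h' : (MvPolynomial (Fin 3) K)} (h1 : f ∈ sp3 f' g' h') (h2 : g ∈ sp3 f' g' h')
    (h3 : h ∈ sp3 f' g' h') : sp3 f g h ≤ sp3 f' g' h' := by
  unfold sp3 at *
  rw [Submodule.span_le]
  rintro x hx
  simp only [Set.mem_insert_iff, Set.mem_singleton_iff] at hx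
  rcases hx with rfl | rfl | rfl | rfl
  · exact Submodule.subset_span (by simp)
  · exact h1
  · exact h2
  · exact h3

/-- affine change of the first entry -/
lemma sp3_aff1 {f g h : (MvPolynomial (Fin 3) K)} {a : K} (ha : a ≠ 0) (b c d : K) :
    sp3 (C a * f + C b * g + C c * h + C d) g h = sp3 f g h := by
  apply le_antisymm
  · refine sp3_le (mem_sp3.mpr ⟨a, b, c, d, rfl⟩) (mem_sp3.mpr ⟨0, 1, 0, 0, by simp⟩)
      (mem_sp3.mpr ⟨0, 0, 1, 0, by simp⟩)
  · refine sp3_le (mem_sp3.mpr ⟨a⁻¹, - a⁻¹ * b, - a⁻¹ * c, - a⁻¹ * d, ?_⟩)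
      (mem_sp3.mpr ⟨0, 1, 0, 0, by simp⟩) (mem_sp3.mpr ⟨0, 0, 1, 0, by simp⟩)
    have : (C a⁻¹ * C a : MvPolynomial (Fin 3) K) = 1 := by rw [← map_mul, inv_mul_cancel₀ ha, map_one]
    simp only [map_mul, map_neg]
    linear_combination (-f) * this

lemma sp3_add1 (f g h : MvPolynomial (Fin 3) K) (b c d : K) :
    sp3 (f + C b * g + C c * h + C d) g h = sp3 f g h := by
  have := sp3_aff1 (f := f) (g := g) (h := h) (a := 1) one_ne_zero b c d
  simpa using this

lemma adj3 {f g h : (MvPolynomial (Fin 3) K)} (H : Fr f g h) (P : MvPolynomial (Fin 2) K) :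
    Adj (sp3 f g h) (sp3 f g (h + ev P f g)) := ⟨f, g, h, P, H, rfl, rfl⟩

lemma adj1 {f g h : (MvPolynomial (Fin 3) K)} (H : Fr f g h) (P : MvPolynomial (Fin 2) K) :
    Adj (sp3 f g h) (sp3 (f + ev P g h) g h) :=
  ⟨g, h, f, P, H.rot, sp3_rot _ _ _, sp3_rot _ _ _⟩

lemma adj2 {f g h : (MvPolynomial (Fin 3) K)} (H : Fr f g h) (P : MvPolynomial (Fin 2) K) :
    Adj (sp3 f g h) (sp3 f (g + ev P f h) h) :=
  ⟨f, h, g, P, H.swap23, sp3_swap23 _ _ _, sp3_swap23 _ _ _⟩

/-- using the induction hypothesis, third place -/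
lemma IHyp.go3 {w : Fin 3 → ℝ} {ν : ℝ} (ih : IHyp K w ν) {f g h : (MvPolynomial (Fin 3) K)} (H : Fr f g h)
    (hd : dg w f + dg w g + dg w h < ν) (hr : Red w (sp3 f g h)) (P : MvPolynomial (Fin 2) K) :
    Red w (sp3 f g (h + ev P f g)) := ih f g h H hd hr _ (adj3 H P)

lemma IHyp.go1 {w : Fin 3 → ℝ} {ν : ℝ} (ih : IHyp K w ν) {f g h : (MvPolynomial (Fin 3) K)} (H : Fr f g h)
    (hd : dg w f + dg w g + dg w h < ν) (hr : Red w (sp3 f g h)) (P : MvPolynomial (Fin 2) K) :
    Red w (sp3 (f + ev P g h) g h) := ih f g h H hd hr _ (adj1 H P)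

lemma IHyp.go2 {w : Fin 3 → ℝ} {ν : ℝ} (ih : IHyp K w ν) {f g h : (MvPolynomial (Fin 3) K)} (H : Fr f g h)
    (hd : dg w f + dg w g + dg w h < ν) (hr : Red w (sp3 f g h)) (P : MvPolynomial (Fin 2) K) :
    Red w (sp3 f (g + ev P f h) h) := ih f g h H hd hr _ (adj2 H P)

end

end Pool.Agent.Lib.MP_e1f7e2_al.SU
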