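import Mathlib
import Pool.Agent.Lib.MP_e1f7e2_al.Defs

set_option autoImplicit false

/-!
Project SU3 (MP_e1f7e2_al): definitions.  See `Paper.md`.
-/

open MvPolynomial

namespace Pool.Agent.Lib.MP_e1f7e2_al.SU

section

variable {K : Type*} [Field K]

/-- weight of an exponent vector -/
def wt (w : Fin 3 → ℝ) (α : Fin 3 →₀ ℕ) : ℝ := ∑ i, (α i : ℝ) * w i

/-- generic weights: positive, and different exponents have different weights -/
structure Gen (w : Fin 3 → ℝ) : Prop where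
  pos : ∀ i, 0 < w i
  inj : ∀ α β : Fin 3 →₀ ℕ, wt w α = wt w β → α = β

/-- degree of a polynomial (with `dg 0 = 0`) -/
noncomputable def dg (w : Fin 3 → ℝ) (f : MvPolynomial (Fin 3) K) : ℝ :=
  if h : f.support.Nonempty then f.support.sup' h (wt w) else 0

/-- `(x_i ∂f/∂x_i)_i` -/
noncomputable def D (f : MvPolynomial (Fin 3) K) : Fin 3 → MvPolynomial (Fin 3) K :=
  fun i => X i * pderiv i f

/-- degree of a vector -/
noncomputable def dv (w : Fin 3 → ℝ) (u : Fin 3 → MvPolynomial (Fin 3) K) : ℝ :=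
  max (dg w (u 0)) (max (dg w (u 1)) (dg w (u 2)))

/-- cross product -/
noncomputable def cr (u v : Fin 3 → MvPolynomial (Fin 3) K) : Fin 3 → MvPolynomial (Fin 3) K :=
  ![u 1 * v 2 - u 2 * v 1, u 2 * v 0 - u 0 * v 2, u 0 * v 1 - u 1 * v 0]

/-- scalar product -/
noncomputable def dt (u v : Fin 3 → MvPolynomial (Fin 3) K) : MvPolynomial (Fin 3) K :=
  u 0 * v 0 + u 1 * v 1 + u 2 * v 2

/-- the bracket `[f,g]` -/
noncomputable def br (w : Fin 3 → ℝ) (f g : MvPolynomial (Fin 3) K) : ℝ := dv w (cr (D f) (D g))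

/-- sum of the weights -/
def sg (w : Fin 3 → ℝ) : ℝ := w 0 + w 1 + w 2

/-- frames: constant nonzero Jacobian -/
def Fr (f g h : MvPolynomial (Fin 3) K) : Prop :=
  ∃ c : K, c ≠ 0 ∧ dt (D f) (cr (D g) (D h)) = C c * (X 0 * X 1 * X 2)

/-- `P(f,g)` -/
noncomputable def ev (P : MvPolynomial (Fin 2) K) (f g : MvPolynomial (Fin 3) K) :
    MvPolynomial (Fin 3) K := aeval ![f, g] P

/-- virtual degree of `P ∈ K[X,Y]`, `X` of degree `a`, `Y` of degree `b` (0 if `P = 0`) -/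
noncomputable def vdg (a b : ℝ) (P : MvPolynomial (Fin 2) K) : ℝ :=
  if h : P.support.Nonempty then P.support.sup' h (fun m => (m 0 : ℝ) * a + (m 1 : ℝ) * b) else 0

/-- iterated partial derivative `∂_X^k ∂_Y^l P` -/
noncomputable def pd (k l : ℕ) (P : MvPolynomial (Fin 2) K) : MvPolynomial (Fin 2) K :=
  (fun Q => pderiv 0 Q)^[k] ((fun Q => pderiv 1 Q)^[l] P)

/-- the vertex `⟨f,g,h⟩` -/
noncomputable def sp3 (f g h : MvPolynomial (Fin 3) K) : Submodule K (MvPolynomial (Fin 3) K) :=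
  Submodule.span K {1, f, g, h}

/-- good frame: distinct degrees in decreasing order -/
structure Good (w : Fin 3 → ℝ) (f1 f2 f3 : MvPolynomial (Fin 3) K) : Prop where
  fr : Fr f1 f2 f3
  d12 : dg w f2 < dg w f1
  d23 : dg w f3 < dg w f2

/-- the data of a K-move -/
structure KMove (w : Fin 3 → ℝ) (f1 f2 f3 : MvPolynomial (Fin 3) K) (a : K)
    (P : MvPolynomial (Fin 2) K) (γ : ℝ) : Prop where
  fr : Fr f1 f2 f3
  ha : a ≠ 0
  hγ : 0 < γ
  h1 : dg w (f1 + C a * f3 ^ 2) = 3 * γ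
  h2 : dg w f2 = 2 * γ
  h3 : dg w f3 ≤ 3 / 2 * γ
  h4 : γ + br w (f1 + C a * f3 ^ 2) f2 ≤ dg w f3
  h5 : dg w (f3 + ev P (f1 + C a * f3 ^ 2) f2) < γ + br w (f1 + C a * f3 ^ 2) f2

/-- reducible vertices (the set `S` of the paper) -/
inductive Red (w : Fin 3 → ℝ) : Submodule K (MvPolynomial (Fin 3) K) → Prop
  | base (f g h : MvPolynomial (Fin 3) K) (hf : Fr f g h)
      (hd : dg w f + dg w g + dg w h ≤ sg w) : Red w (sp3 f g h)
  | e1 (f1 f2 f3 : MvPolynomial (Fin 3) K) (Q : MvPolynomial (Fin 2) K) (hf : Good w f1 f2 f3)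
      (hd : dg w (f1 + ev Q f2 f3) < dg w f1) (hr : Red w (sp3 (f1 + ev Q f2 f3) f2 f3)) :
      Red w (sp3 f1 f2 f3)
  | e2 (f1 f2 f3 : MvPolynomial (Fin 3) K) (P : MvPolynomial (Fin 2) K) (hf : Good w f1 f2 f3)
      (hd : dg w (f2 + ev P f1 f3) < dg w f2) (hr : Red w (sp3 f1 (f2 + ev P f1 f3) f3)) :
      Red w (sp3 f1 f2 f3)
  | e3 (f1 f2 f3 : MvPolynomial (Fin 3) K) (P : MvPolynomial (Fin 2) K) (hf : Good w f1 f2 f3)
      (hd : dg w (f3 + ev P f1 f2) < dg w f3) (hr : Red w (sp3 f1 f2 (f3 + ev P f1 f2))) :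
      Red w (sp3 f1 f2 f3)
  | k (f1 f2 f3 : MvPolynomial (Fin 3) K) (a : K) (P : MvPolynomial (Fin 2) K) (γ : ℝ)
      (hk : KMove w f1 f2 f3 a P γ)
      (hr : Red w (sp3 (f1 + C a * f3 ^ 2) f2 (f3 + ev P (f1 + C a * f3 ^ 2) f2))) :
      Red w (sp3 f1 f2 f3)

/-- neighbours (they share the plane `⟨f,g⟩`) -/
def Adj (V V' : Submodule K (MvPolynomial (Fin 3) K)) : Prop :=
  ∃ (f g h : MvPolynomial (Fin 3) K) (P : MvPolynomial (Fin 2) K),
    Fr f g h ∧ V = sp3 f g h ∧ V' = sp3 f g (h + ev P f g)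

/-- induction hypothesis: all neighbours of reducible vertices of degree `< ν` are reducible -/
def IHyp (K : Type*) [Field K] (w : Fin 3 → ℝ) (ν : ℝ) : Prop :=
  ∀ f g h : MvPolynomial (Fin 3) K, Fr f g h → dg w f + dg w g + dg w h < ν →
    Red w (sp3 f g h) → ∀ V', Adj (sp3 f g h) V' → Red w V'

/-- the data of a degenerate `P` for the pair `f, g` (section 2 of the paper): the two degrees are
`p γ` and `q γ`, `p, q` coprime, and `m ≥ 1` is the multiplicity. -/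
structure SUD (w : Fin 3 → ℝ) (f g : MvPolynomial (Fin 3) K) (P : MvPolynomial (Fin 2) K)
    (p q m : ℕ) (γ : ℝ) : Prop where
  hγ : 0 < γ
  hp : 1 ≤ p
  hq : 1 ≤ q
  hm : 1 ≤ m
  cop : Nat.Coprime p q
  df : dg w f = p * γ
  dg' : dg w g = q * γ
  vd : ∃ i j : ℕ, vdg (dg w f) (dg w g) P = m * p * q * γ + (i * p + j * q) * γ
  /-- the inequality for the derivatives -/
  low : ∀ k l : ℕ, k + l ≤ m → vdg (dg w f) (dg w g) P - k * (p * γ) - l * (q * γ)
      - (m - k - l) * ((p + q) * γ - br w f g) ≤ dg w (ev (pd k l P) f g)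
  ne : ∀ k l : ℕ, k + l ≤ m → ev (pd k l P) f g ≠ 0
  top : ∀ k l : ℕ, k + l = m →
      dg w (ev (pd k l P) f g) = vdg (dg w f) (dg w g) P - k * (p * γ) - l * (q * γ)

end

end Pool.Agent.Lib.MP_e1f7e2_al.SU
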