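import Pool.Agent.Lib.MP_e1f7e2_al.SU.Alg

set_option autoImplicit false

/-!
Project SU3 (MP_e1f7e2_al): module statements.  Proofs: `Paper.md`, `Blueprint.md`.
`K` is a field of characteristic 0 and `w` is generic in all modules (`Gen w`), the basic facts are
collected in the structure `Facts K w`, which every module may assume.
-/

open MvPolynomial

namespace Pool.Agent.Lib.MP_e1f7e2_al.SU

section

variable (K : Type*) [Field K] (w : Fin 3 → ℝ)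


/-- module DEG: the degree function -/
structure DegFacts : Prop where
  nn : ∀ f : (MvPolynomial (Fin 3) K), 0 ≤ dg w f
  zero : dg w (0 : MvPolynomial (Fin 3) K) = 0
  const : ∀ c : K, dg w (C c : MvPolynomial (Fin 3) K) = 0
  of_zero : ∀ f : (MvPolynomial (Fin 3) K), dg w f = 0 → ∃ c : K, f = C c
  X' : ∀ i, dg w (X i : MvPolynomial (Fin 3) K) = w i
  neg : ∀ f : (MvPolynomial (Fin 3) K), dg w (-f) = dg w f
  add_le : ∀ f g : (MvPolynomial (Fin 3) K), dg w (f + g) ≤ max (dg w f) (dg w g)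
  sub_le : ∀ f g : (MvPolynomial (Fin 3) K), dg w (f - g) ≤ max (dg w f) (dg w g)
  add_right : ∀ f g : (MvPolynomial (Fin 3) K), dg w f < dg w g → dg w (f + g) = dg w g
  add_left : ∀ f g : (MvPolynomial (Fin 3) K), dg w g < dg w f → dg w (f + g) = dg w f
  sub_left : ∀ f g : (MvPolynomial (Fin 3) K), dg w g < dg w f → dg w (f - g) = dg w f
  sub_right : ∀ f g : (MvPolynomial (Fin 3) K), dg w f < dg w g → dg w (f - g) = dg w g
  mul : ∀ f g : (MvPolynomial (Fin 3) K), f ≠ 0 → g ≠ 0 → dg w (f * g) = dg w f + dg w g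
  mul_le : ∀ f g : (MvPolynomial (Fin 3) K), dg w (f * g) ≤ dg w f + dg w g
  pow : ∀ (f : MvPolynomial (Fin 3) K) (n : ℕ), dg w (f ^ n) = n * dg w f
  Cmul : ∀ (c : K) (f : MvPolynomial (Fin 3) K), c ≠ 0 → dg w (C c * f) = dg w f
  Cmul_le : ∀ (c : K) (f : MvPolynomial (Fin 3) K), dg w (C c * f) ≤ dg w f
  sum_le : ∀ (ι : Type) (s : Finset ι) (f : ι → (MvPolynomial (Fin 3) K)) (r : ℝ), 0 ≤ r → (∀ i ∈ s, dg w (f i) ≤ r) →
    dg w (∑ i ∈ s, f i) ≤ r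
  /-- equal positive degrees: the leading monomials are equal, so a combination is smaller -/
  lead : ∀ f g : (MvPolynomial (Fin 3) K), 0 < dg w f → dg w f = dg w g → ∃ c : K, c ≠ 0 ∧ dg w (f - C c * g) < dg w f
  /-- degrees are weights of exponents -/
  val : ∀ f : (MvPolynomial (Fin 3) K), ∃ α : Fin 3 →₀ ℕ, dg w f = wt w α
  /-- only finitely many values below a bound -/
  fin : ∀ r : ℝ, {x : ℝ | x ≤ r ∧ ∃ α : Fin 3 →₀ ℕ, x = wt w α}.Finite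
  /-- minimal elements exist -/
  minim : ∀ s : Set (MvPolynomial (Fin 3) K), s.Nonempty → ∃ f ∈ s, ∀ g ∈ s, dg w f ≤ dg w g

/-- module VEC: degrees of vectors -/
structure VecFacts : Prop where
  nn : ∀ u : Fin 3 → (MvPolynomial (Fin 3) K), 0 ≤ dv w u
  zero : dv w (0 : Fin 3 → (MvPolynomial (Fin 3) K)) = 0
  neg : ∀ u : Fin 3 → (MvPolynomial (Fin 3) K), dv w (-u) = dv w u
  add_le : ∀ u v : Fin 3 → (MvPolynomial (Fin 3) K), dv w (u + v) ≤ max (dv w u) (dv w v)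
  sub_le : ∀ u v : Fin 3 → (MvPolynomial (Fin 3) K), dv w (u - v) ≤ max (dv w u) (dv w v)
  add_right : ∀ u v : Fin 3 → (MvPolynomial (Fin 3) K), dv w u < dv w v → dv w (u + v) = dv w v
  add_left : ∀ u v : Fin 3 → (MvPolynomial (Fin 3) K), dv w v < dv w u → dv w (u + v) = dv w u
  sub_right : ∀ u v : Fin 3 → (MvPolynomial (Fin 3) K), dv w u < dv w v → dv w (u - v) = dv w v
  sub_left : ∀ u v : Fin 3 → (MvPolynomial (Fin 3) K), dv w v < dv w u → dv w (u - v) = dv w u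
  smul : ∀ (a : MvPolynomial (Fin 3) K) (u : Fin 3 → (MvPolynomial (Fin 3) K)), a ≠ 0 → u ≠ 0 → dv w (a • u) = dg w a + dv w u
  smul_le : ∀ (a : MvPolynomial (Fin 3) K) (u : Fin 3 → (MvPolynomial (Fin 3) K)), dv w (a • u) ≤ dg w a + dv w u
  Csmul : ∀ (c : K) (u : Fin 3 → (MvPolynomial (Fin 3) K)), c ≠ 0 → dv w ((C c : MvPolynomial (Fin 3) K) • u) = dv w u
  cr_le : ∀ u v : Fin 3 → (MvPolynomial (Fin 3) K), dv w (cr u v) ≤ dv w u + dv w v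
  dt_le : ∀ u v : Fin 3 → (MvPolynomial (Fin 3) K), dg w (dt u v) ≤ dv w u + dv w v
  D' : ∀ f : (MvPolynomial (Fin 3) K), dv w (D f) = dg w f

/-- module BRF: brackets and frames -/
structure BrFacts : Prop where
  nn : ∀ f g : (MvPolynomial (Fin 3) K), 0 ≤ br w f g
  comm : ∀ f g : (MvPolynomial (Fin 3) K), br w f g = br w g f
  le : ∀ f g : (MvPolynomial (Fin 3) K), br w f g ≤ dg w f + dg w g
  Cmul : ∀ (c : K) (f g : MvPolynomial (Fin 3) K), c ≠ 0 → br w (C c * f) g = br w f g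
  addC : ∀ (c : K) (f g : MvPolynomial (Fin 3) K), br w (f + C c) g = br w f g
  /-- parallel leading monomials -/
  par : ∀ (f g : MvPolynomial (Fin 3) K) (p q : ℕ), 0 < p → 0 < q → 0 < dg w f → q * dg w f = p * dg w g →
    br w f g < dg w f + dg w g
  dpos : ∀ f g h : (MvPolynomial (Fin 3) K), Fr f g h → 0 < dg w f
  bpos : ∀ f g h : (MvPolynomial (Fin 3) K), Fr f g h → 0 < br w f g
  cne : ∀ f g h : (MvPolynomial (Fin 3) K), Fr f g h → cr (D f) (D g) ≠ 0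
  /-- `0 < [f,g]` implies algebraic independence -/
  inj : ∀ (f g : MvPolynomial (Fin 3) K) (P : MvPolynomial (Fin 2) K), 0 < br w f g → ev P f g = 0 → P = 0
  sgpos : 0 < sg w
  sgle : ∀ f g h : (MvPolynomial (Fin 3) K), Fr f g h → sg w ≤ dg w f + br w g h
  /-- principle of two maxima (apply it to the permuted frames as well) -/
  two : ∀ f g h : (MvPolynomial (Fin 3) K), Fr f g h → dg w f + br w g h ≤ dg w g + br w f h ∨
    dg w f + br w g h ≤ dg w h + br w f g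
  /-- (T1) -/
  t1 : ∀ (f g : MvPolynomial (Fin 3) K) (P : MvPolynomial (Fin 2) K), ev (pderiv 1 P) f g ≠ 0 → cr (D f) (D g) ≠ 0 →
    dg w (ev (pderiv 1 P) f g) + br w f g ≤ dg w (ev P f g) + dg w f
  t1' : ∀ (f g : MvPolynomial (Fin 3) K) (P : MvPolynomial (Fin 2) K), ev (pderiv 0 P) f g ≠ 0 → cr (D f) (D g) ≠ 0 →
    dg w (ev (pderiv 0 P) f g) + br w f g ≤ dg w (ev P f g) + dg w g
  /-- (T2) -/
  t2 : ∀ (f g h : MvPolynomial (Fin 3) K) (P : MvPolynomial (Fin 2) K), Fr f g h → ev (pderiv 1 P) f g ≠ 0 →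
    dg w (ev (pderiv 1 P) f g) + sg w ≤ dg w (ev P f g) + br w f h
  t2' : ∀ (f g h : MvPolynomial (Fin 3) K) (P : MvPolynomial (Fin 2) K), Fr f g h → ev (pderiv 0 P) f g ≠ 0 →
    dg w (ev (pderiv 0 P) f g) + sg w ≤ dg w (ev P f g) + br w g h

/-- module VDG: virtual degrees -/
structure VdFacts : Prop where
  nn : ∀ (a b : ℝ) (P : MvPolynomial (Fin 2) K), 0 ≤ a → 0 ≤ b → 0 ≤ vdg a b P
  ge : ∀ (a b : ℝ) (P : MvPolynomial (Fin 2) K) (m : Fin 2 →₀ ℕ), m ∈ P.support → (m 0 : ℝ) * a + (m 1 : ℝ) * b ≤ vdg a b P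
  att : ∀ (a b : ℝ) (P : MvPolynomial (Fin 2) K), P ≠ 0 → ∃ m ∈ P.support, (m 0 : ℝ) * a + (m 1 : ℝ) * b = vdg a b P
  ev_le : ∀ (f g : MvPolynomial (Fin 3) K) (P : MvPolynomial (Fin 2) K), dg w (ev P f g) ≤ vdg (dg w f) (dg w g) P
  /-- polynomials whose monomials do not involve `X` -/
  uni1 : ∀ P : (MvPolynomial (Fin 2) K), (∀ m ∈ P.support, m 0 = 0) → ∃ R : Polynomial K, ∀ f g : (MvPolynomial (Fin 3) K),
    ev P f g = Polynomial.aeval g R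
  uni0 : ∀ P : (MvPolynomial (Fin 2) K), (∀ m ∈ P.support, m 1 = 0) → ∃ R : Polynomial K, ∀ f g : (MvPolynomial (Fin 3) K),
    ev P f g = Polynomial.aeval f R
  /-- polynomials with few monomials: `c0 + c1 X + c2 Y + c3 Y²` -/
  quad : ∀ P : (MvPolynomial (Fin 2) K), (∀ m ∈ P.support, (m 0 = 0 ∧ m 1 ≤ 2) ∨ (m 0 = 1 ∧ m 1 = 0)) →
    ∃ c0 c1 c2 c3 : K, ∀ f g : (MvPolynomial (Fin 3) K), ev P f g = C c0 + C c1 * f + C c2 * g + C c3 * g ^ 2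
  /-- `c X + R(Y)` -/
  lin0 : ∀ P : (MvPolynomial (Fin 2) K), (∀ m ∈ P.support, m 0 = 0 ∨ (m 0 = 1 ∧ m 1 = 0)) →
    ∃ (c : K) (R : Polynomial K), ∀ f g : (MvPolynomial (Fin 3) K), ev P f g = C c * f + Polynomial.aeval g R
  /-- constants -/
  cst : ∀ P : (MvPolynomial (Fin 2) K), (∀ m ∈ P.support, m = 0) → ∃ c : K, P = C c
  /-- degree of a univariate polynomial expression -/
  auni : ∀ (g : MvPolynomial (Fin 3) K) (R : Polynomial K), R ≠ 0 → dg w (Polynomial.aeval g R) = R.natDegree * dg w g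

/-- all basic facts -/
structure Facts : Prop where
  d : DegFacts K w
  v : VecFacts K w
  b : BrFacts K w
  p : VdFacts K w

/-- module SU: the Shestakov-Umirbaev inequality -/
def SuStatement : Prop :=
  ∀ (f g : MvPolynomial (Fin 3) K) (P : MvPolynomial (Fin 2) K), 0 < br w f g → dg w (ev P f g) < vdg (dg w f) (dg w g) P →
    ∃ (p q m : ℕ) (γ : ℝ), SUD w f g P p q m γ

/-- module SULOW: the case `k = l = 0` -/
def SuLowStatement : Prop :=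
  ∀ (f g : MvPolynomial (Fin 3) K) (P : MvPolynomial (Fin 2) K) (p q m : ℕ) (γ : ℝ), SUD w f g P p q m γ →
    ∃ i j : ℕ, vdg (dg w f) (dg w g) P = m * p * q * γ + (i * p + j * q) * γ ∧
      m * ((p * q - p - q) * γ + br w f g) + (i * p + j * q) * γ ≤ dg w (ev P f g)

/-- module T2M: iterated (T2) -/
def T2mStatement : Prop :=
  ∀ (f g h : MvPolynomial (Fin 3) K) (P : MvPolynomial (Fin 2) K) (p q m : ℕ) (γ : ℝ), Fr f g h → SUD w f g P p q m γ →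
    vdg (dg w f) (dg w g) P - m * dg w g - m * (br w f h - sg w) ≤ dg w (ev P f g) ∧
    vdg (dg w f) (dg w g) P - m * dg w f - m * (br w g h - sg w) ≤ dg w (ev P f g)

/-- section 2 as assumptions -/
structure SuAll : Prop where
  su : SuStatement K w
  low : SuLowStatement K w
  t2m : T2mStatement K w

/-- module GOOD: good frames exist -/
def GoodStatement : Prop :=
  ∀ f g h : (MvPolynomial (Fin 3) K), Fr f g h → ∃ f1 f2 f3 : (MvPolynomial (Fin 3) K), Good w f1 f2 f3 ∧ sp3 f1 f2 f3 = sp3 f g h ∧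
    dg w f1 + dg w f2 + dg w f3 ≤ dg w f + dg w g + dg w h

/-- module NB: normal form of neighbours -/
def NbStatement : Prop :=
  ∀ (f1 f2 f3 : MvPolynomial (Fin 3) K) (V' : Submodule K (MvPolynomial (Fin 3) K)), Good w f1 f2 f3 → Adj (sp3 f1 f2 f3) V' →
    (Red w (sp3 f1 f2 f3) → Red w V') ∨
    (∃ Q : (MvPolynomial (Fin 2) K), V' = sp3 (f1 + ev Q f2 f3) f2 f3 ∧ dg w (f1 + ev Q f2 f3) ≤ dg w f1) ∨
    (∃ (c : K) (P : MvPolynomial (Fin 2) K), V' = sp3 (f1 + C c * f2) (f2 + ev P (f1 + C c * f2) f3) f3 ∧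
      dg w (f2 + ev P (f1 + C c * f2) f3) ≤ dg w f2) ∨
    (∃ (c1 c2 : K) (P : MvPolynomial (Fin 2) K),
      V' = sp3 (f1 + C c1 * f3) (f2 + C c2 * f3) (f3 + ev P (f1 + C c1 * f3) (f2 + C c2 * f3)) ∧
      dg w (f3 + ev P (f1 + C c1 * f3) (f2 + C c2 * f3)) ≤ dg w f3)

/-- module INV: how a vertex given by a good frame can be reducible -/
def InvStatement : Prop :=
  ∀ (f1 f2 f3 : MvPolynomial (Fin 3) K), Good w f1 f2 f3 → Red w (sp3 f1 f2 f3) →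
    (dg w f1 + dg w f2 + dg w f3 ≤ sg w) ∨
    (∃ Q : (MvPolynomial (Fin 2) K), dg w (f1 + ev Q f2 f3) < dg w f1 ∧ Red w (sp3 (f1 + ev Q f2 f3) f2 f3)) ∨
    (∃ (c : K) (P : MvPolynomial (Fin 2) K), dg w (f2 + ev P (f1 + C c * f2) f3) < dg w f2 ∧
      Red w (sp3 (f1 + C c * f2) (f2 + ev P (f1 + C c * f2) f3) f3)) ∨
    (∃ (c1 c2 : K) (P : MvPolynomial (Fin 2) K),
      dg w (f3 + ev P (f1 + C c1 * f3) (f2 + C c2 * f3)) < dg w f3 ∧
      Red w (sp3 (f1 + C c1 * f3) (f2 + C c2 * f3)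
        (f3 + ev P (f1 + C c1 * f3) (f2 + C c2 * f3)))) ∨
    (∃ (c1 c2 c3 a : K) (P : MvPolynomial (Fin 2) K) (γ : ℝ),
      KMove w (f1 + C c1 * f2 + C c2 * f3) (f2 + C c3 * f3) f3 a P γ ∧
      Red w (sp3 (f1 + C c1 * f2 + C c2 * f3 + C a * f3 ^ 2) (f2 + C c3 * f3)
        (f3 + ev P (f1 + C c1 * f2 + C c2 * f3 + C a * f3 ^ 2) (f2 + C c3 * f3))))

/-- module SQ (i) -/
def SqiStatement : Prop :=
  ∀ (l h f : MvPolynomial (Fin 3) K) (Q : MvPolynomial (Fin 2) K) (R : Polynomial K), Fr l h f → IHyp K w (dg w l + dg w h + dg w f) →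
    dg w (h + ev Q l f) < dg w h → dg w (f + Polynomial.aeval l R) ≤ dg w f →
    Red w (sp3 l (h + ev Q l f) f) → Red w (sp3 l h (f + Polynomial.aeval l R))

/-- module SQ (ii) -/
def SqiiStatement : Prop :=
  ∀ (l h f : MvPolynomial (Fin 3) K) (Q : MvPolynomial (Fin 2) K) (R : Polynomial K), Fr l h f → IHyp K w (dg w l + dg w h + dg w f) →
    dg w (h + ev Q l f) ≤ dg w h → dg w (f + Polynomial.aeval l R) < dg w f →
    Red w (sp3 l h (f + Polynomial.aeval l R)) → Red w (sp3 l (h + ev Q l f) f)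

/-- the data of (T3) -/
structure T3D (w : Fin 3 → ℝ) {K : Type*} [Field K] (f1 f2 f3 : MvPolynomial (Fin 3) K)
    (P : MvPolynomial (Fin 2) K) (γ : ℝ) : Prop where
  hγ : 0 < γ
  d1 : dg w f1 = 3 * γ
  d2 : dg w f2 = 2 * γ
  lo : γ + br w f1 f2 ≤ dg w (ev P f1 f2)
  hi : dg w (ev P f1 f2) ≤ dg w f3
  px : dg w (ev (pderiv 0 P) f1 f2) = 3 * γ
  py : dg w (ev (pderiv 1 P) f1 f2) = 4 * γ
  b1 : 3 * γ + sg w ≤ dg w (ev P f1 f2) + br w f2 f3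
  b2 : br w f1 f3 = γ + br w f2 f3

/-- module T3: type 3 LE-moves -/
def T3Statement : Prop :=
  ∀ (f1 f2 f3 : MvPolynomial (Fin 3) K) (P : MvPolynomial (Fin 2) K), Good w f1 f2 f3 → dg w (f3 + ev P f1 f2) ≤ dg w f3 →
    (∃ c : K, P = C c) ∨ (∃ n : ℕ, 2 ≤ n ∧ dg w f1 = n * dg w f2) ∨
    (∃ γ : ℝ, T3D w f1 f2 f3 P γ)

/-- facts on K-vertices -/
structure KF (w : Fin 3 → ℝ) {K : Type*} [Field K] (f1 f2 f3 : MvPolynomial (Fin 3) K) (a : K)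
    (P : MvPolynomial (Fin 2) K) (γ ε : ℝ) : Prop where
  hε : ε = br w (f1 + C a * f3 ^ 2) f2
  εpos : 0 < ε
  b1 : br w f2 f3 = 3 * γ + ε
  b2 : br w f1 f3 = 4 * γ + ε
  b3 : br w f1 f2 = dg w f3 + 3 * γ + ε
  d1 : 5 / 2 * γ + ε ≤ dg w f1
  d1' : dg w f1 ≤ 3 * γ
  d1'' : 2 * dg w f3 < 3 * γ → dg w f1 = 3 * γ
  good : Good w f1 f2 f3
  good' : Good w (f1 + C a * f3 ^ 2) f2 f3
  lt : dg w (f1 + C a * f3 ^ 2) + dg w f2 + dg w (f3 + ev P (f1 + C a * f3 ^ 2) f2) <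
    dg w f1 + dg w f2 + dg w f3
  /-- `P` has only monomials `X^i Y^j` with `3 i + 2 j ≤ 6` -/
  bd : ∀ m ∈ P.support, 3 * m 0 + 2 * m 1 ≤ 6

/-- module KFACT -/
def KFactStatement : Prop :=
  ∀ (f1 f2 f3 : MvPolynomial (Fin 3) K) (a : K) (P : MvPolynomial (Fin 2) K) (γ : ℝ), KMove w f1 f2 f3 a P γ →
    KF w f1 f2 f3 a P γ (br w (f1 + C a * f3 ^ 2) f2)

/-- module KNB: the main claim for K-vertices -/
def KnbStatement : Prop :=
  ∀ (f1 f2 f3 : MvPolynomial (Fin 3) K) (a : K) (P : MvPolynomial (Fin 2) K) (γ : ℝ), KMove w f1 f2 f3 a P γ →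
    Red w (sp3 (f1 + C a * f3 ^ 2) f2 (f3 + ev P (f1 + C a * f3 ^ 2) f2)) →
    ∀ V', Adj (sp3 f1 f2 f3) V' → Red w V'

/-- module D12 -/
def D12Statement : Prop :=
  ∀ (f1 f2 f3 : MvPolynomial (Fin 3) K) (Q : MvPolynomial (Fin 2) K) (p : ℕ) (γ : ℝ), Good w f1 f2 f3 → 0 < γ → Odd p → 3 ≤ p →
    dg w f1 = p * γ → dg w f3 = 2 * γ → (p - 2) * γ + br w f1 f3 ≤ dg w f2 →
    (∀ n : ℕ, dg w f2 ≠ n * dg w f3) → dg w (ev Q f2 f3) ≤ dg w f1 →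
    ∃ (c : K) (R : Polynomial K), ev Q f2 f3 = C c * f2 + Polynomial.aeval f3 R

/-- module N964 -/
def N964Statement : Prop :=
  ∀ (f1 f2 f3 : MvPolynomial (Fin 3) K) (Q : MvPolynomial (Fin 2) K) (γ : ℝ), Fr f1 f2 f3 → 0 < γ →
    dg w f1 = 3 * γ → dg w f2 = 2 * γ → γ < dg w f3 → dg w f3 < 2 * γ →
    br w f1 f2 ≤ dg w f3 - γ → dg w (ev Q f2 f3) < vdg (dg w f2) (dg w f3) Q →
    dg w (ev Q f2 f3) ≤ 3 * γ →
    3 * dg w f3 = 4 * γ ∧ dg w (ev (pderiv 0 Q) f2 f3) = 2 * γ ∧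
    3 * dg w (ev (pderiv 1 Q) f2 f3) = 8 * γ ∧ 3 * br w f2 f3 ≤ 7 * γ

/-- module Y -/
def YStatement : Prop :=
  ∀ (g1 f2 f3 : MvPolynomial (Fin 3) K) (μ : ℝ), Fr g1 f2 f3 → 0 < μ → dg w f2 = 6 * μ → dg w f3 = 4 * μ →
    6 * μ < dg w g1 → dg w g1 < 9 * μ → (∀ R : (MvPolynomial (Fin 2) K), dg w g1 ≤ dg w (g1 + ev R f2 f3)) →
    br w g1 f3 < br w g1 f2 → br w f2 f3 < br w g1 f3 → 9 * μ < br w g1 f3 →
    ¬ Red w (sp3 g1 f2 f3)

/-- module D23 -/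
def D23Statement : Prop :=
  ∀ (f1 f2 f3 : MvPolynomial (Fin 3) K) (P : MvPolynomial (Fin 2) K) (γ : ℝ), Fr f1 f2 f3 → 0 < γ →
    dg w f1 = 3 * γ → dg w f2 = 2 * γ → γ < dg w f3 → dg w f3 < 2 * γ →
    br w f1 f2 ≤ dg w f3 - γ → dg w (ev P f1 f3) < vdg (dg w f1) (dg w f3) P →
    dg w (ev P f1 f3) ≤ 2 * γ → 2 * dg w f3 = 3 * γ

/-- module X -/
def XStatement : Prop :=
  ∀ (f1 f2 g3 : MvPolynomial (Fin 3) K) (P0 : MvPolynomial (Fin 2) K) (γ : ℝ), Fr f1 f2 g3 → 0 < γ →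
    dg w f1 = 3 * γ → dg w f2 = 2 * γ → γ + br w f1 f2 ≤ dg w g3 → dg w g3 < 3 / 2 * γ →
    (∀ R : (MvPolynomial (Fin 2) K), dg w g3 ≤ dg w (g3 + ev R f1 f2)) →
    (¬ ∃ c : K, P0 = C c) → dg w (ev P0 f1 f2) ≤ 3 / 2 * γ →
    (∀ V', Adj (sp3 f1 f2 g3) V' → Red w V') → ¬ Red w (sp3 f1 f2 g3)

/-- module BSTAR -/
def BstarStatement : Prop :=
  ∀ (f1 f2 f3 h1 : MvPolynomial (Fin 3) K) (R : MvPolynomial (Fin 2) K) (γ : ℝ), Fr f1 f2 f3 → 0 < γ →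
    dg w f1 = 3 * γ → dg w f2 = 2 * γ → dg w f3 = 3 / 2 * γ →
    br w f1 f2 ≤ γ / 2 → 3 / 2 * γ < br w f2 f3 → br w f1 f3 = γ + br w f2 f3 →
    h1 = f1 + ev R f2 f3 → (∀ R' : (MvPolynomial (Fin 2) K), dg w h1 ≤ dg w (h1 + ev R' f2 f3)) → dg w h1 < 3 * γ →
    Red w (sp3 h1 f2 f3) →
    ∃ P : (MvPolynomial (Fin 2) K), dg w (f3 + ev P f1 f2) < γ + br w f1 f2 ∧ Red w (sp3 f1 f2 (f3 + ev P f1 f2))

/-- module D22 -/
def D22Statement : Prop :=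
  ∀ (f1 f2 f3 : MvPolynomial (Fin 3) K) (c : K) (P P' : MvPolynomial (Fin 2) K) (p : ℕ) (γ : ℝ), Good w f1 f2 f3 → c ≠ 0 → 0 < γ →
    Odd p → 3 ≤ p → dg w f1 = p * γ → dg w f3 = 2 * γ →
    dg w (f2 + ev P f1 f3) < dg w f2 →
    (∀ R : (MvPolynomial (Fin 2) K), dg w (f2 + ev P f1 f3) ≤ dg w (f2 + ev P f1 f3 + ev R f1 f3)) →
    dg w (ev P f1 f3) < vdg (dg w f1) (dg w f3) P →
    dg w (ev P' (f1 + C c * f2) f3) < vdg (dg w (f1 + C c * f2)) (dg w f3) P' →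
    dg w (ev P' (f1 + C c * f2) f3) ≤ dg w f2 →
    (∀ n : ℕ, dg w f2 ≠ n * dg w f3) →
    (∀ V', Adj (sp3 f1 (f2 + ev P f1 f3) f3) V' → Red w V') →
    ¬ Red w (sp3 f1 (f2 + ev P f1 f3) f3)

/-! ### the pairs -/

def P12Statement : Prop :=
  ∀ (f1 f2 f3 : MvPolynomial (Fin 3) K) (Q P : MvPolynomial (Fin 2) K), Good w f1 f2 f3 → IHyp K w (dg w f1 + dg w f2 + dg w f3) →
    dg w (f1 + ev Q f2 f3) < dg w f1 → Red w (sp3 (f1 + ev Q f2 f3) f2 f3) →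
    dg w (f2 + ev P f1 f3) ≤ dg w f2 → Red w (sp3 f1 (f2 + ev P f1 f3) f3)

def P21Statement : Prop :=
  ∀ (f1 f2 f3 : MvPolynomial (Fin 3) K) (P Q : MvPolynomial (Fin 2) K), Good w f1 f2 f3 → IHyp K w (dg w f1 + dg w f2 + dg w f3) →
    dg w (f2 + ev P f1 f3) < dg w f2 → Red w (sp3 f1 (f2 + ev P f1 f3) f3) →
    dg w (f1 + ev Q f2 f3) ≤ dg w f1 → Red w (sp3 (f1 + ev Q f2 f3) f2 f3)

def P13Statement : Prop :=
  ∀ (f1 f2 f3 : MvPolynomial (Fin 3) K) (Q P : MvPolynomial (Fin 2) K), Good w f1 f2 f3 → IHyp K w (dg w f1 + dg w f2 + dg w f3) →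
    dg w (f1 + ev Q f2 f3) < dg w f1 → Red w (sp3 (f1 + ev Q f2 f3) f2 f3) →
    dg w (f3 + ev P f1 f2) ≤ dg w f3 → Red w (sp3 f1 f2 (f3 + ev P f1 f2))

def P31Statement : Prop :=
  ∀ (f1 f2 f3 : MvPolynomial (Fin 3) K) (P Q : MvPolynomial (Fin 2) K), Good w f1 f2 f3 → IHyp K w (dg w f1 + dg w f2 + dg w f3) →
    dg w (f3 + ev P f1 f2) < dg w f3 → Red w (sp3 f1 f2 (f3 + ev P f1 f2)) →
    dg w (f1 + ev Q f2 f3) ≤ dg w f1 → Red w (sp3 (f1 + ev Q f2 f3) f2 f3)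

def P23Statement : Prop :=
  ∀ (f1 f2 f3 : MvPolynomial (Fin 3) K) (P P' : MvPolynomial (Fin 2) K), Good w f1 f2 f3 → IHyp K w (dg w f1 + dg w f2 + dg w f3) →
    dg w (f2 + ev P f1 f3) < dg w f2 → Red w (sp3 f1 (f2 + ev P f1 f3) f3) →
    dg w (f3 + ev P' f1 f2) ≤ dg w f3 → Red w (sp3 f1 f2 (f3 + ev P' f1 f2))

def P32Statement : Prop :=
  ∀ (f1 f2 f3 : MvPolynomial (Fin 3) K) (P P' : MvPolynomial (Fin 2) K), Good w f1 f2 f3 → IHyp K w (dg w f1 + dg w f2 + dg w f3) →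
    dg w (f3 + ev P f1 f2) < dg w f3 → Red w (sp3 f1 f2 (f3 + ev P f1 f2)) →
    dg w (f2 + ev P' f1 f3) ≤ dg w f2 → Red w (sp3 f1 (f2 + ev P' f1 f3) f3)

def P22Statement : Prop :=
  ∀ (f1 f2 f3 : MvPolynomial (Fin 3) K) (c : K) (P P' : MvPolynomial (Fin 2) K), Good w f1 f2 f3 → c ≠ 0 →
    IHyp K w (dg w f1 + dg w f2 + dg w f3) →
    dg w (f2 + ev P f1 f3) < dg w f2 → Red w (sp3 f1 (f2 + ev P f1 f3) f3) →
    dg w (f2 + ev P' (f1 + C c * f2) f3) ≤ dg w f2 →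
    Red w (sp3 (f1 + C c * f2) (f2 + ev P' (f1 + C c * f2) f3) f3)

def P33Statement : Prop :=
  ∀ (f1 f2 f3 : MvPolynomial (Fin 3) K) (c1 c2 : K) (P P' : MvPolynomial (Fin 2) K), Good w f1 f2 f3 → (c1 ≠ 0 ∨ c2 ≠ 0) →
    IHyp K w (dg w f1 + dg w f2 + dg w f3) →
    dg w (f3 + ev P f1 f2) < dg w f3 → Red w (sp3 f1 f2 (f3 + ev P f1 f2)) →
    dg w (f3 + ev P' (f1 + C c1 * f3) (f2 + C c2 * f3)) ≤ dg w f3 →
    Red w (sp3 (f1 + C c1 * f3) (f2 + C c2 * f3)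
      (f3 + ev P' (f1 + C c1 * f3) (f2 + C c2 * f3)))

/-- module STEP: the induction step (good frame of degree `ν`) -/
def StepStatement : Prop :=
  ∀ f1 f2 f3 : (MvPolynomial (Fin 3) K), Good w f1 f2 f3 → IHyp K w (dg w f1 + dg w f2 + dg w f3) →
    Red w (sp3 f1 f2 f3) → ∀ V', Adj (sp3 f1 f2 f3) V' → Red w V'

/-- module MAIN: the main claim -/
def MainStatement : Prop :=
  ∀ f g h : (MvPolynomial (Fin 3) K), Fr f g h → Red w (sp3 f g h) → ∀ V', Adj (sp3 f g h) V' → Red w V'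

/-- module TAME: the vertices of tame automorphisms are reducible -/
def TameStatement : Prop :=
  ∀ φ ∈ TAut K (X : Fin 3 → (MvPolynomial (Fin 3) K)), Red w (sp3 (φ (X 0)) (φ (X 1)) (φ (X 2)))

end

end Pool.Agent.Lib.MP_e1f7e2_al.SU
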