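import Pool.Agent.Lib.MP_e1f7e2_al.SU.Iface

set_option autoImplicit false

/-!
Project SU3 (MP_e1f7e2_al): module statements for sections 5 and 6 of the paper.
The variable `X 0` is the special variable (`X1` in the paper); `Ad` is `K[X 1, X 2]`.
-/

open MvPolynomial

namespace Pool.Agent.Lib.MP_e1f7e2_al.SU

section

variable {K : Type*} [Field K]


/-- the subalgebra `K[X 1, X 2]` -/
noncomputable def Ad (K : Type*) [Field K] : Subalgebra K (MvPolynomial (Fin 3) K) :=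
  Algebra.adjoin K {X 1, X 2}

/-- coefficient of `(X 0)^j`, a polynomial in `X 1, X 2` -/
noncomputable def co (j : ℕ) (H : MvPolynomial (Fin 3) K) : (MvPolynomial (Fin 3) K) := rename Fin.succ ((finSuccEquiv K 2 H).coeff j)

/-- degree in `X 0` -/
noncomputable def dX (H : MvPolynomial (Fin 3) K) : ℕ := (finSuccEquiv K 2 H).natDegree

/-- leading coefficient with respect to `X 0` -/
noncomputable def lcX (H : MvPolynomial (Fin 3) K) : (MvPolynomial (Fin 3) K) := co (dX H) H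

/-- degree of `ψ⁻¹ (lc H)` -/
noncomputable def eX (w : Fin 3 → ℝ) (ψ : (MvPolynomial (Fin 3) K) ≃ₐ[K] (MvPolynomial (Fin 3) K)) (H : MvPolynomial (Fin 3) K) : ℝ := dg w (ψ.symm (lcX H))

/-- `Y = (ψ τ)(X)` for a tame `τ` -/
def Cos (ψ : (MvPolynomial (Fin 3) K) ≃ₐ[K] (MvPolynomial (Fin 3) K)) (Y : Fin 3 → (MvPolynomial (Fin 3) K)) : Prop :=
  ∃ τ ∈ TAut K (X : Fin 3 → (MvPolynomial (Fin 3) K)), ∀ i, Y i = ψ (τ (X i))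

/-- `φ : X 0 ↦ X 0 + g`, `X 1, X 2` fixed -/
def IsPhi (φ : (MvPolynomial (Fin 3) K) ≃ₐ[K] (MvPolynomial (Fin 3) K)) (g : MvPolynomial (Fin 3) K) : Prop := φ (X 0) = X 0 + g ∧ φ (X 1) = X 1 ∧ φ (X 2) = X 2

/-- polynomials of degree `≤ B` in the entries of `Y` -/
noncomputable def PolyB (B : ℕ) (Y : Fin 3 → (MvPolynomial (Fin 3) K)) : Submodule K (MvPolynomial (Fin 3) K) :=
  (restrictTotalDegree (Fin 3) K B).map (aeval Y : (MvPolynomial (Fin 3) K) →ₐ[K] (MvPolynomial (Fin 3) K)).toLinearMap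

end

section

variable (K : Type*) [Field K] (w : Fin 3 → ℝ)


/-- module GENW -/
def GenwStatement : Prop := ∃ w : Fin 3 → ℝ, Gen w

/-- module PHI -/
def PhiStatement : Prop :=
  ∀ g ∈ Ad K, ∃ φ : (MvPolynomial (Fin 3) K) ≃ₐ[K] (MvPolynomial (Fin 3) K), IsPhi φ g ∧ IsElementary (X : Fin 3 → (MvPolynomial (Fin 3) K)) φ

/-- module COEF: calculus of `co`, `dX`, `lcX` -/
structure CoefFacts : Prop where
  mem : ∀ (j : ℕ) (H : MvPolynomial (Fin 3) K), co j H ∈ Ad K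
  rep : ∀ H : (MvPolynomial (Fin 3) K), H = ∑ j ∈ Finset.range (dX H + 1), co j H * X 0 ^ j
  lin : ∀ (j : ℕ) (c : K) (H H' : MvPolynomial (Fin 3) K), co j (C c * H + H') = C c * co j H + co j H'
  ne : ∀ H : (MvPolynomial (Fin 3) K), H ≠ 0 → lcX H ≠ 0
  dmul : ∀ H H' : (MvPolynomial (Fin 3) K), H ≠ 0 → H' ≠ 0 → dX (H * H') = dX H + dX H'
  lmul : ∀ H H' : (MvPolynomial (Fin 3) K), H ≠ 0 → H' ≠ 0 → lcX (H * H') = lcX H * lcX H'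
  zero : ∀ H : (MvPolynomial (Fin 3) K), dX H = 0 ↔ H ∈ Ad K
  big : ∀ (j : ℕ) (H : MvPolynomial (Fin 3) K), dX H < j → co j H = 0

/-- module ASYM: for `H` in a finite dimensional space and `N` large the degree of
`ψ⁻¹ φ_N (H)`, `φ_N = (X 0 + f^N, X 1, X 2)`, is `e(H) + N d(H) q` -/
def AsymStatement : Prop :=
  ∀ (ψ : (MvPolynomial (Fin 3) K) ≃ₐ[K] (MvPolynomial (Fin 3) K)) (f : MvPolynomial (Fin 3) K), f ∈ Ad K → 0 < dg w (ψ.symm f) →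
    ∀ W : Submodule K (MvPolynomial (Fin 3) K), FiniteDimensional K W →
      ∃ N0 : ℕ, ∀ N : ℕ, N0 ≤ N → ∀ φ : (MvPolynomial (Fin 3) K) ≃ₐ[K] (MvPolynomial (Fin 3) K), IsPhi φ (f ^ N) → ∀ H ∈ W, H ≠ 0 →
        dg w (ψ.symm (φ H)) = eX w ψ H + N * dX H * dg w (ψ.symm f)

/-- module FINVAL -/
def FinvalStatement : Prop :=
  ∀ (ψ : (MvPolynomial (Fin 3) K) ≃ₐ[K] (MvPolynomial (Fin 3) K)) (W : Submodule K (MvPolynomial (Fin 3) K)), FiniteDimensional K W →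
    {x : ℝ | ∃ H ∈ W, x = eX w ψ H}.Finite ∧ ∃ Dm : ℕ, ∀ H ∈ W, dX H ≤ Dm

/-- module CHOICE -/
def ChoiceStatement : Prop :=
  ∀ (ψ : (MvPolynomial (Fin 3) K) ≃ₐ[K] (MvPolynomial (Fin 3) K)) (E : Finset ℝ), ∃ f : (MvPolynomial (Fin 3) K), f ∈ Ad K ∧ 0 < dg w (ψ.symm f) ∧
    ∀ e ∈ E, 0 < e → ∀ r : ℚ, dg w (ψ.symm f) ≠ r * e

/-- module AUTFR: the Jacobian of an automorphism is a nonzero constant -/
def AutfrStatement : Prop := ∀ ρ : (MvPolynomial (Fin 3) K) ≃ₐ[K] (MvPolynomial (Fin 3) K), Fr (ρ (X 0)) (ρ (X 1)) (ρ (X 2))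

/-- module COS: the coset is stable under tame changes -/
structure CosFacts : Prop where
  /-- entries of a coset tuple form a frame, also after an automorphism `T` -/
  fr : ∀ (ψ : (MvPolynomial (Fin 3) K) ≃ₐ[K] (MvPolynomial (Fin 3) K)) (Y : Fin 3 → (MvPolynomial (Fin 3) K)) (T : (MvPolynomial (Fin 3) K) ≃ₐ[K] (MvPolynomial (Fin 3) K)), Cos ψ Y →
    Fr (T (Y 0)) (T (Y 1)) (T (Y 2))
  /-- affine change, written after an automorphism `T` -/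
  lift : ∀ (ψ : (MvPolynomial (Fin 3) K) ≃ₐ[K] (MvPolynomial (Fin 3) K)) (Y : Fin 3 → (MvPolynomial (Fin 3) K)) (T : (MvPolynomial (Fin 3) K) ≃ₐ[K] (MvPolynomial (Fin 3) K)) (F1 F2 F3 : MvPolynomial (Fin 3) K), Cos ψ Y →
    Fr F1 F2 F3 → sp3 F1 F2 F3 = sp3 (T (Y 0)) (T (Y 1)) (T (Y 2)) →
    Cos ψ ![T.symm F1, T.symm F2, T.symm F3]
  el0 : ∀ (ψ : (MvPolynomial (Fin 3) K) ≃ₐ[K] (MvPolynomial (Fin 3) K)) (H1 H2 H3 : MvPolynomial (Fin 3) K) (P : MvPolynomial (Fin 2) K), Cos ψ ![H1, H2, H3] →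
    Cos ψ ![H1 + ev P H2 H3, H2, H3]
  el1 : ∀ (ψ : (MvPolynomial (Fin 3) K) ≃ₐ[K] (MvPolynomial (Fin 3) K)) (H1 H2 H3 : MvPolynomial (Fin 3) K) (P : MvPolynomial (Fin 2) K), Cos ψ ![H1, H2, H3] →
    Cos ψ ![H1, H2 + ev P H1 H3, H3]
  el2 : ∀ (ψ : (MvPolynomial (Fin 3) K) ≃ₐ[K] (MvPolynomial (Fin 3) K)) (H1 H2 H3 : MvPolynomial (Fin 3) K) (P : MvPolynomial (Fin 2) K), Cos ψ ![H1, H2, H3] →
    Cos ψ ![H1, H2, H3 + ev P H1 H2]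
  perm : ∀ (ψ : (MvPolynomial (Fin 3) K) ≃ₐ[K] (MvPolynomial (Fin 3) K)) (H1 H2 H3 : MvPolynomial (Fin 3) K), Cos ψ ![H1, H2, H3] →
    Cos ψ ![H2, H1, H3] ∧ Cos ψ ![H1, H3, H2]

/-- module BND: bounded strict moves -/
def BndStatement : Prop :=
  ∀ (E : Finset ℝ) (Dm : ℕ) (q : ℝ), 0 < q → (∀ e ∈ E, 0 ≤ e) →
    (∀ e ∈ E, 0 < e → ∀ r : ℚ, q ≠ r * e) →
    ∃ B N0 : ℕ, ∀ N : ℕ, N0 ≤ N → ∀ (F1 F2 F3 : MvPolynomial (Fin 3) K) (P : MvPolynomial (Fin 2) K) (d1 d2 d3 : ℕ) (e1 e2 e3 : ℝ),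
      Fr F1 F2 F3 → d1 ≤ Dm → d2 ≤ Dm → d3 ≤ Dm → e1 ∈ E → e2 ∈ E → e3 ∈ E →
      dg w F1 = e1 + N * d1 * q → dg w F2 = e2 + N * d2 * q → dg w F3 = e3 + N * d3 * q →
      ¬ (d1 = 0 ∧ d2 = 0) → dg w (F3 + ev P F1 F2) < dg w F3 →
      ∃ P' : (MvPolynomial (Fin 2) K), P'.totalDegree ≤ B ∧ (dg w (F3 + ev P' F1 F2) < dg w F3 ∨
        dg w (F1 + ev P' F2 F3) < dg w F1 ∨ dg w (F2 + ev P' F1 F3) < dg w F2)

/-- `Y` is minimal in its coset -/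
def IsMinY (w : Fin 3 → ℝ) {K : Type*} [Field K]
    (ψ : MvPolynomial (Fin 3) K ≃ₐ[K] MvPolynomial (Fin 3) K)
    (Y : Fin 3 → MvPolynomial (Fin 3) K) : Prop :=
  Cos ψ Y ∧ ∀ Y' : Fin 3 → MvPolynomial (Fin 3) K, Cos ψ Y' →
    dX (Y 0) + dX (Y 1) + dX (Y 2) < dX (Y' 0) + dX (Y' 1) + dX (Y' 2) ∨
    (dX (Y 0) + dX (Y 1) + dX (Y 2) = dX (Y' 0) + dX (Y' 1) + dX (Y' 2) ∧
      eX w ψ (Y 0) + eX w ψ (Y 1) + eX w ψ (Y 2) ≤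
      eX w ψ (Y' 0) + eX w ψ (Y' 1) + eX w ψ (Y' 2))

/-- module MINI -/
def MiniStatement : Prop := ∀ ψ : (MvPolynomial (Fin 3) K) ≃ₐ[K] (MvPolynomial (Fin 3) K), ∃ Y : Fin 3 → (MvPolynomial (Fin 3) K), IsMinY w ψ Y

/-- module LEXC -/
def LexcStatement : Prop :=
  ∀ (ψ : (MvPolynomial (Fin 3) K) ≃ₐ[K] (MvPolynomial (Fin 3) K)) (Y : Fin 3 → (MvPolynomial (Fin 3) K)) (f : MvPolynomial (Fin 3) K) (B : ℕ), IsMinY w ψ Y → f ∈ Ad K →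
    0 < dg w (ψ.symm f) → ∃ N0 : ℕ, ∀ N : ℕ, N0 ≤ N → ∀ φ : (MvPolynomial (Fin 3) K) ≃ₐ[K] (MvPolynomial (Fin 3) K), IsPhi φ (f ^ N) →
      ∀ Y' : Fin 3 → (MvPolynomial (Fin 3) K), Cos ψ Y' → (∀ i, Y' i ∈ PolyB B Y) →
        dg w (ψ.symm (φ (Y 0))) + dg w (ψ.symm (φ (Y 1))) + dg w (ψ.symm (φ (Y 2))) ≤
        dg w (ψ.symm (φ (Y' 0))) + dg w (ψ.symm (φ (Y' 1))) + dg w (ψ.symm (φ (Y' 2)))

/-- module JVDK: Jung - van der Kulk for `K[X 1, X 2]` -/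
def JvdkStatement : Prop :=
  ∀ φ : (MvPolynomial (Fin 3) K) ≃ₐ[K] (MvPolynomial (Fin 3) K), φ (X 0) = X 0 → φ (X 1) ∈ Ad K → φ (X 2) ∈ Ad K → φ ∈ TAut K (X : Fin 3 → (MvPolynomial (Fin 3) K))

/-- module TERM: the terminal case -/
def TermStatement : Prop :=
  ∀ (ρ : (MvPolynomial (Fin 3) K) ≃ₐ[K] (MvPolynomial (Fin 3) K)) (i j : Fin 3), i ≠ j → dX (ρ (X i)) = 0 → dX (ρ (X j)) = 0 →
    ρ ∈ TAut K (X : Fin 3 → (MvPolynomial (Fin 3) K))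

/-- module FINAL: for a wild `ψ` there is `f ∈ K[X 1, X 2]` such that all `ψ⁻¹ φ_N ψ`, `N` large,
`φ_N = (X 0 + f ^ N, X 1, X 2)`, are wild -/
def FinalStatement : Prop :=
  ∀ ψ : (MvPolynomial (Fin 3) K) ≃ₐ[K] (MvPolynomial (Fin 3) K), ψ ∉ TAut K (X : Fin 3 → (MvPolynomial (Fin 3) K)) → ∃ f ∈ Ad K, ∃ N0 : ℕ, ∀ N : ℕ, N0 ≤ N →
    ∀ φ : (MvPolynomial (Fin 3) K) ≃ₐ[K] (MvPolynomial (Fin 3) K), IsPhi φ (f ^ N) → ψ⁻¹ * φ * ψ ∉ TAut K (X : Fin 3 → (MvPolynomial (Fin 3) K))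

end

end Pool.Agent.Lib.MP_e1f7e2_al.SU
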